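import Mathlib

set_option autoImplicit false

noncomputable section

namespace Pool.Agent.L7h49.QT

/-- The set of points: the grids of mesh `2^(-n-3)` outside of the discs of radius `n - 1`. -/
def S : Set ℂ :=
  {z | ∃ (n : ℕ) (a b : ℤ), z = ((a : ℂ) + b * Complex.I) / (2 : ℂ) ^ (n + 3) ∧ (n : ℝ) - 1 ≤ ‖z‖}

/-- The unit disc graph of `S`. -/
def G : SimpleGraph S where
  Adj u v := u ≠ v ∧ ‖(u : ℂ) - v‖ ≤ 1
  symm := ⟨fun u v h => ⟨h.1.symm, by rw [norm_sub_rev]; exact h.2⟩⟩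
  loopless := ⟨fun u h => h.1 rfl⟩

theorem near (n : ℕ) (z : ℂ) (hz : (n : ℝ) - 1 / 2 ≤ ‖z‖) :
    ∃ s : S, ‖(s : ℂ) - z‖ ≤ 1 / 2 ^ (n + 3) := by
  have hM8 : (8 : ℝ) ≤ 2 ^ (n + 3) := by
    have : (1 : ℝ) ≤ 2 ^ n := one_le_pow₀ (by norm_num)
    rw [pow_add]; linarith
  obtain ⟨M, hM⟩ : ∃ M : ℝ, M = 2 ^ (n + 3) := ⟨_, rfl⟩
  rw [← hM] at hM8 ⊢
  have hM0 : 0 < M := by linarith
  have hs : ‖(((round (z.re * M) : ℤ) : ℂ) + ((round (z.im * M) : ℤ) : ℂ) * Complex.I) / (2 : ℂ) ^ (n + 3) - z‖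
      ≤ 1 / M := by
    have e1 : (((round (z.re * M) : ℤ) : ℂ) + ((round (z.im * M) : ℤ) : ℂ) * Complex.I) / (2 : ℂ) ^ (n + 3) - z
        = (((round (z.re * M) - z.re * M : ℝ) : ℂ) + ((round (z.im * M) - z.im * M : ℝ) : ℂ) * Complex.I) / (M : ℂ) := by
      have e2 : ((2 : ℂ) ^ (n + 3)) = (M : ℂ) := by rw [hM]; push_cast; rfl
      rw [e2]
      have e3 : (M : ℂ) ≠ 0 := by exact_mod_cast hM0.ne'
      have e4 : z = (z.re : ℂ) + (z.im : ℂ) * Complex.I := (Complex.re_add_im z).symm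
      field_simp
      conv_lhs => rw [e4]
      push_cast
      simp only [Complex.add_re, Complex.ofReal_re, Complex.mul_re, Complex.I_re, Complex.ofReal_im,
        Complex.I_im, Complex.add_im, Complex.mul_im]
      ring
    rw [e1, norm_div, Complex.norm_real, Real.norm_of_nonneg hM0.le]
    apply div_le_div_of_nonneg_right _ hM0.le
    refine (Complex.norm_le_abs_re_add_abs_im _).trans ?_
    have h1 := abs_sub_round (z.re * M)
    have h2 := abs_sub_round (z.im * M)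
    rw [abs_sub_comm] at h1 h2
    simp only [Complex.add_re, Complex.ofReal_re, Complex.mul_re, Complex.I_re, Complex.ofReal_im,
        Complex.I_im, Complex.add_im, Complex.mul_im, mul_zero, mul_one, sub_zero, add_zero, zero_add, zero_mul]
    linarith
  refine ⟨⟨_, n, round (z.re * M), round (z.im * M), rfl, ?_⟩, hs⟩
  have h1 : 1 / M ≤ 1 / 8 := one_div_le_one_div_of_le (by norm_num) hM8
  have h2 := norm_sub_norm_le z ((((round (z.re * M) : ℤ) : ℂ) + ((round (z.im * M) : ℤ) : ℂ) * Complex.I) / (2 : ℂ) ^ (n + 3))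
  rw [norm_sub_rev] at h2
  linarith

theorem locfin (v : S) : (G.neighborSet v).Finite := by
  obtain ⟨N, hN⟩ := exists_nat_ge (‖(v : ℂ)‖ + 2)
  obtain ⟨K, hK⟩ := exists_nat_ge ((‖(v : ℂ)‖ + 1) * 2 ^ (N + 3))
  have hfin : (((fun q : ℕ × ℤ × ℤ => ((q.2.1 : ℂ) + q.2.2 * Complex.I) / (2 : ℂ) ^ (q.1 + 3)) ''
      ((Set.Iic N) ×ˢ ((Set.Icc (-(K : ℤ)) K) ×ˢ (Set.Icc (-(K : ℤ)) K))))).Finite := by
    apply Set.Finite.image
    exact (Set.finite_Iic N).prod ((Set.finite_Icc _ _).prod (Set.finite_Icc _ _))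
  apply Set.Finite.of_finite_image (f := fun s : S => (s : ℂ)) _ Subtype.val_injective.injOn
  apply hfin.subset
  rintro _ ⟨u, hu, rfl⟩
  obtain ⟨n, a, b, hz, hn⟩ := u.2
  have hu2 : ‖(v : ℂ) - u‖ ≤ 1 := hu.2
  have hun : ‖(u : ℂ)‖ ≤ ‖(v : ℂ)‖ + 1 := by
    have := norm_sub_norm_le (u : ℂ) v
    rw [norm_sub_rev] at this
    linarith
  have hnN : n ≤ N := by
    have : (n : ℝ) ≤ N := by linarith
    exact_mod_cast this
  have hpow : (2 : ℝ) ^ (n + 3) ≤ 2 ^ (N + 3) := pow_le_pow_right₀ (by norm_num) (by omega)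
  have hp0 : (0 : ℝ) < 2 ^ (n + 3) := by positivity
  have e : (a : ℂ) + b * Complex.I = u * ((2 ^ (n + 3) : ℝ) : ℂ) := by
    rw [hz]; push_cast
    field_simp
  have ha : (a : ℝ) = (u : ℂ).re * 2 ^ (n + 3) := by
    have := congrArg Complex.re e
    rw [Complex.re_mul_ofReal] at this
    simpa using this
  have hb : (b : ℝ) = (u : ℂ).im * 2 ^ (n + 3) := by
    have := congrArg Complex.im e
    rw [Complex.im_mul_ofReal] at this
    simpa using this
  have hA : |(a : ℝ)| ≤ K := by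
    rw [ha, abs_mul, abs_of_pos hp0]
    refine le_trans ?_ hK
    exact mul_le_mul ((Complex.abs_re_le_norm _).trans hun) hpow hp0.le (by positivity)
  have hB : |(b : ℝ)| ≤ K := by
    rw [hb, abs_mul, abs_of_pos hp0]
    refine le_trans ?_ hK
    exact mul_le_mul ((Complex.abs_im_le_norm _).trans hun) hpow hp0.le (by positivity)
  refine ⟨(n, a, b), ⟨hnN, ⟨?_, ?_⟩, ⟨?_, ?_⟩⟩, hz.symm⟩
  · have := (abs_le.1 hA).1; exact_mod_cast this
  · have := (abs_le.1 hA).2; exact_mod_cast this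
  · have := (abs_le.1 hB).1; exact_mod_cast this
  · have := (abs_le.1 hB).2; exact_mod_cast this

def W (k : ℕ) : ℝ := k - 1 / 2 + 1 / 2 ^ (k + 1)

def w (m : ℤ) : ℝ := if 0 ≤ m then W m.natAbs else -W m.natAbs

theorem W_step (k : ℕ) : |W (k + 1) - W k| ≤ 1 - 1 / 2 ^ (k + 3) - 1 / 2 ^ (k + 1 + 3) := by
  have h : (0 : ℝ) < 1 / 2 ^ k := by positivity
  have h1 : (1 : ℝ) / 2 ^ k ≤ 1 := by
    rw [div_le_one (by positivity)]
    exact one_le_pow₀ (by norm_num)
  have e1 : (1 : ℝ) / 2 ^ (k + 3) = (1 / 2 ^ k) / 8 := by rw [pow_add]; field_simp <;> norm_num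
  have e2 : (1 : ℝ) / 2 ^ (k + 1 + 3) = (1 / 2 ^ k) / 16 := by
    rw [add_assoc, pow_add]; field_simp <;> norm_num
  have e3 : (1 : ℝ) / 2 ^ (k + 1) = (1 / 2 ^ k) / 2 := by rw [pow_add]; field_simp <;> norm_num
  have e4 : (1 : ℝ) / 2 ^ (k + 1 + 1) = (1 / 2 ^ k) / 4 := by
    rw [add_assoc, pow_add]; field_simp <;> norm_num
  unfold W
  rw [e1, e2, e3, e4]
  push_cast
  rw [abs_le]
  constructor <;> linarith

theorem w_step (m : ℤ) :
    |w (m + 1) - w m| ≤ 1 - 1 / 2 ^ (m.natAbs + 3) - 1 / 2 ^ ((m + 1).natAbs + 3) := by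
  rcases Int.le_total 0 m with hm | hm
  · obtain ⟨k, rfl⟩ := Int.eq_ofNat_of_zero_le hm
    have := W_step k
    unfold w
    rw [if_pos (by omega), if_pos (by omega)]
    have e1 : ((k : ℤ) + 1).natAbs = k + 1 := by omega
    have e2 : ((k : ℤ)).natAbs = k := by omega
    rw [e1, e2]
    exact this
  · rcases eq_or_lt_of_le hm with rfl | hm
    · have := W_step 0
      unfold w
      simpa using this
    · obtain ⟨k, rfl⟩ : ∃ k : ℕ, m = -((k : ℤ) + 1) := ⟨(-m - 1).toNat, by omega⟩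
      have := W_step k
      have e1 : (-((k : ℤ) + 1) + 1).natAbs = k := by omega
      have e2 : (-((k : ℤ) + 1)).natAbs = k + 1 := by omega
      have e3 : w (-((k : ℤ) + 1) + 1) = -W k := by
        unfold w
        by_cases hk : k = 0
        · subst hk
          simp [W]
        · rw [if_neg (by omega), e1]
      have e4 : w (-((k : ℤ) + 1)) = -W (k + 1) := by
        unfold w
        rw [if_neg (by omega), e2]
      rw [e1, e2, e3, e4]
      rw [show -W k - -W (k + 1) = W (k + 1) - W k by ring]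
      linarith

theorem w_near (m : ℤ) : |w m - m| ≤ 1 / 2 - 1 / 2 ^ (m.natAbs + 1) := by
  have h1 : ∀ k : ℕ, (1 : ℝ) / 2 ^ (k + 1) ≤ 1 / 2 := by
    intro k
    have h1 : (1 : ℝ) / 2 ^ k ≤ 1 := by
      rw [div_le_one (by positivity)]
      exact one_le_pow₀ (by norm_num)
    have e3 : (1 : ℝ) / 2 ^ (k + 1) = (1 / 2 ^ k) / 2 := by rw [pow_add]; field_simp <;> norm_num
    rw [e3]; linarith
  have h2 := h1 m.natAbs
  have h3 : (0 : ℝ) < 1 / 2 ^ (m.natAbs + 1) := by positivity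
  unfold w W
  rw [Nat.cast_natAbs]
  split_ifs with h
  · rw [abs_of_nonneg h, abs_le]
    constructor <;> linarith
  · rw [abs_of_neg (not_le.1 h)]
    push_cast
    rw [abs_le]
    constructor <;> linarith

theorem w_abs (m : ℤ) : (m.natAbs : ℝ) - 1 / 2 ≤ |w m| := by
  have h := w_near m
  have h3 : (0 : ℝ) < 1 / 2 ^ (m.natAbs + 1) := by positivity
  have h2 : |(m : ℝ)| ≤ |w m| + |w m - m| := by
    have := abs_sub_abs_le_abs_sub (m : ℝ) (w m)
    rw [abs_sub_comm (m : ℝ)] at this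
    linarith
  rw [Nat.cast_natAbs, Int.cast_abs]
  linarith

theorem short (u v : S) (h : ‖(u : ℂ) - v‖ ≤ 1) : ∃ p : G.Walk u v, p.length ≤ 1 := by
  by_cases huv : u = v
  · subst huv
    exact ⟨SimpleGraph.Walk.nil, by simp⟩
  · have hadj : G.Adj u v := ⟨huv, h⟩
    refine ⟨SimpleGraph.Walk.cons hadj SimpleGraph.Walk.nil, ?_⟩
    rw [SimpleGraph.Walk.length_cons, SimpleGraph.Walk.length_nil]

theorem walks (x y : S) : ∃ p : G.Walk x y, (p.length : ℝ) ≤ ‖(x : ℂ) - y‖ + 3 := by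
  by_cases hxy : (x : ℂ) = y
  · have : x = y := Subtype.ext hxy
    subst this
    exact ⟨SimpleGraph.Walk.nil, by simp⟩
  have hL : 0 < ‖(y : ℂ) - x‖ := norm_pos_iff.2 (sub_ne_zero.2 (Ne.symm hxy))
  obtain ⟨L, hLd⟩ : ∃ L : ℝ, L = ‖(y : ℂ) - x‖ := ⟨_, rfl⟩
  rw [← hLd] at hL
  obtain ⟨e, he⟩ : ∃ e : ℂ, e = ((y : ℂ) - x) / (L : ℂ) := ⟨_, rfl⟩
  have hLc : (L : ℂ) ≠ 0 := by exact_mod_cast hL.ne'
  have he1 : ‖e‖ = 1 := by
    rw [he, norm_div, Complex.norm_real, Real.norm_of_nonneg hL.le, ← hLd, div_self hL.ne']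
  have hy : (y : ℂ) = x + L * e := by
    rw [he]; field_simp; ring
  have hee : e * (starRingEnd ℂ) e = 1 := by
    rw [Complex.mul_conj, Complex.normSq_eq_norm_sq, he1]; simp
  obtain ⟨a, ha⟩ : ∃ a : ℝ, a = ((x : ℂ) * (starRingEnd ℂ) e).re := ⟨_, rfl⟩
  -- the points of the line
  let P : ℝ → ℂ := fun u => x + ((u - a : ℝ) : ℂ) * e
  have hP : ∀ u, |u| ≤ ‖P u‖ := by
    intro u
    have h1 : ‖P u‖ = ‖P u * (starRingEnd ℂ) e‖ := by
      rw [norm_mul, RCLike.norm_conj, he1, mul_one]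
    rw [h1]
    have h2 : (P u * (starRingEnd ℂ) e).re = u := by
      show ((x + ((u - a : ℝ) : ℂ) * e) * (starRingEnd ℂ) e).re = u
      rw [add_mul, mul_assoc, hee, mul_one, Complex.add_re, ← ha, Complex.ofReal_re]
      ring
    calc |u| = |(P u * (starRingEnd ℂ) e).re| := by rw [h2]
      _ ≤ _ := Complex.abs_re_le_norm _
  have hPP : ∀ u v, ‖P u - P v‖ = |u - v| := by
    intro u v
    show ‖(x + ((u - a : ℝ) : ℂ) * e) - (x + ((v - a : ℝ) : ℂ) * e)‖ = |u - v|
    rw [show (x + ((u - a : ℝ) : ℂ) * e) - (x + ((v - a : ℝ) : ℂ) * e) = ((u - v : ℝ) : ℂ) * e by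
      push_cast; ring]
    rw [norm_mul, he1, mul_one, Complex.norm_real, Real.norm_eq_abs]
  have hPx : P a = x := by
    show (x : ℂ) + ((a - a : ℝ) : ℂ) * e = x
    simp
  have hPy : P (a + L) = y := by
    show (x : ℂ) + ((a + L - a : ℝ) : ℂ) * e = y
    rw [hy]; push_cast; ring
  choose s hs using fun m : ℤ => near m.natAbs (P (w m)) ((w_abs m).trans (hP _))
  have hstep : ∀ m : ℤ, ‖(s m : ℂ) - s (m + 1)‖ ≤ 1 := by
    intro m
    have h1 := hs m
    have h2 := hs (m + 1)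
    have h3 := w_step m
    have h4 := hPP (w m) (w (m + 1))
    rw [abs_sub_comm] at h4
    have h5 : (s m : ℂ) - s (m + 1) = ((s m : ℂ) - P (w m)) + (P (w m) - P (w (m + 1))) -
        (s (m + 1) - P (w (m + 1))) := by ring
    rw [h5]
    refine (norm_sub_le _ _).trans ?_
    have h6 := norm_add_le ((s m : ℂ) - P (w m)) (P (w m) - P (w (m + 1)))
    linarith
  have hchain : ∀ (n : ℕ) (m : ℤ), ∃ p : G.Walk (s m) (s (m + n)), p.length ≤ n := by
    intro n m
    induction n with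
    | zero =>
      have : s m = s (m + ((0 : ℕ) : ℤ)) := by simp
      exact ⟨(SimpleGraph.Walk.nil : G.Walk (s m) (s m)).copy rfl this, by simp⟩
    | succ n ih =>
      obtain ⟨p, hp⟩ := ih
      obtain ⟨q, hq⟩ := short (s (m + n)) (s (m + n + 1)) (hstep _)
      have : s (m + n + 1) = s (m + ((n + 1 : ℕ) : ℤ)) := by push_cast; rw [add_assoc]
      refine ⟨(p.append q).copy rfl this, ?_⟩
      simp only [SimpleGraph.Walk.length_copy, SimpleGraph.Walk.length_append]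
      omega
  have hends : ∀ (c : ℝ) (z : S), P c = z → ‖(z : ℂ) - s (round c)‖ ≤ 1 := by
    intro c z hz
    have h1 := hs (round c)
    have h2 := w_near (round c)
    have h3 := abs_sub_round c
    have h4 := hPP c (w (round c))
    have h5 : |c - w (round c)| ≤ |c - round c| + |w (round c) - round c| := by
      rw [abs_sub_comm (w (round c))]
      calc |c - w (round c)| = |(c - round c) + (round c - w (round c))| := by ring_nf
        _ ≤ _ := abs_add_le _ _
    have h6 : (z : ℂ) - s (round c) = (P c - P (w (round c))) - (s (round c) - P (w (round c))) := by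
      rw [hz]; ring
    rw [h6]
    refine (norm_sub_le _ _).trans ?_
    have h7 : (1 : ℝ) / 2 ^ ((round c).natAbs + 3) ≤ 1 / 2 ^ ((round c).natAbs + 1) := by
      apply one_div_le_one_div_of_le (by positivity)
      exact pow_le_pow_right₀ (by norm_num) (by omega)
    rw [h4]
    linarith
  obtain ⟨p1, hp1⟩ := short x (s (round a)) (hends a x hPx)
  obtain ⟨p3, hp3⟩ := short (s (round (a + L))) y (by rw [norm_sub_rev]; exact hends (a + L) y hPy)
  have hle : round a ≤ round (a + L) := by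
    rw [round_eq, round_eq]
    exact Int.floor_le_floor (by linarith)
  obtain ⟨k, hk⟩ : ∃ k : ℕ, round (a + L) = round a + k := ⟨(round (a + L) - round a).toNat, by omega⟩
  have h2 := hchain k (round a)
  rw [← hk] at h2
  obtain ⟨p2, hp2⟩ := h2
  refine ⟨(p1.append p2).append p3, ?_⟩
  rw [SimpleGraph.Walk.length_append, SimpleGraph.Walk.length_append]
  have h3 := abs_le.1 (abs_sub_round a)
  have h4 := abs_le.1 (abs_sub_round (a + L))
  have hkR : (k : ℝ) = round (a + L) - round a := by rw [hk]; push_cast; ring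
  have h5 : (p1.length : ℝ) ≤ 1 := by exact_mod_cast hp1
  have h6 : (p2.length : ℝ) ≤ k := by exact_mod_cast hp2
  have h7 : (p3.length : ℝ) ≤ 1 := by exact_mod_cast hp3
  have h8 : ‖(x : ℂ) - y‖ = L := by rw [hLd, norm_sub_rev]
  rw [h8]
  push_cast
  linarith [h3.1, h3.2, h4.1, h4.2]

theorem lower {x y : S} (p : G.Walk x y) : ‖(x : ℂ) - y‖ ≤ p.length := by
  induction p with
  | nil => simp
  | @cons u v z h p ih =>
    rw [SimpleGraph.Walk.length_cons]
    have h1 : ‖(u : ℂ) - v‖ ≤ 1 := h.2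
    have h2 := norm_add_le ((u : ℂ) - v) (v - z)
    rw [sub_add_sub_cancel] at h2
    push_cast
    linarith

theorem conn : G.Connected := by
  haveI : Nonempty S := by
    obtain ⟨s, _⟩ := near 0 0 (by norm_num)
    exact ⟨s⟩
  exact ⟨fun x y => (walks x y).elim fun p _ => ⟨p⟩⟩

theorem dist_err (x y : S) : |‖(x : ℂ) - y‖ - (G.dist x y : ℝ)| < 4 := by
  obtain ⟨p, hp⟩ := walks x y
  have h1 : (G.dist x y : ℝ) ≤ p.length := by exact_mod_cast SimpleGraph.dist_le p
  obtain ⟨q, hq⟩ := conn.exists_walk_length_eq_dist x y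
  have h2 := lower q
  rw [hq] at h2
  rw [abs_lt]
  constructor <;> linarith

end Pool.Agent.L7h49.QT
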